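import Pool.Agent.SKQ.Kit

/-!
# Row INT: boundaries of two cubes meet
-/

set_option autoImplicit false

namespace Pool.Agent.SKQ.H65

open Metric Set Filter Topology MeasureTheory
open Helper22QC Pool.Agent.SKQ

theorem core {n : ℕ} (p p' : E n) (t t' δ : ℝ) (ht : 0 < t) (ht' : 0 < t')
    (hd : ∀ i, |p' i - p i| ≤ δ) (h3 : δ ≤ t + t') (i0 : Fin n)
    (w : ℝ) (hw : |w| ≤ t) (hw' : |w - (p' i0 - p i0)| ≤ t')
    (ha : |w| = t ∨ ∃ j, j ≠ i0 ∧ |min t (p' j - p j + t')| = t)
    (hb : |w - (p' i0 - p i0)| = t' ∨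
      ∃ j, j ≠ i0 ∧ |min t (p' j - p j + t') - (p' j - p j)| = t') :
    (bcube p t ∩ bcube p' t').Nonempty := by
  obtain ⟨v, hv⟩ : ∃ v : Fin n → ℝ, v = fun i => if i = i0 then w else min t (p' i - p i + t') :=
    ⟨_, rfl⟩
  have hv0 : v i0 = w := by rw [hv]; simp
  have hv1 : ∀ i, i ≠ i0 → v i = min t (p' i - p i + t') := by
    intro i hi
    rw [hv]
    simp [hi]
  have e1 : ∀ i, (WithLp.toLp 2 (fun i => p i + v i) : E n) i - p i = v i := by
    intro i
    show p i + v i - p i = v i
    ring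
  have e2 : ∀ i, (WithLp.toLp 2 (fun i => p i + v i) : E n) i - p' i = v i - (p' i - p i) := by
    intro i
    show p i + v i - p' i = v i - (p' i - p i)
    ring
  have b1 : ∀ i, |v i| ≤ t := by
    intro i
    by_cases hi : i = i0
    · rw [hi, hv0]
      exact hw
    · rw [hv1 i hi, abs_le]
      have h := abs_le.1 (hd i)
      exact ⟨le_min (by linarith) (by linarith), min_le_left _ _⟩
  have b2 : ∀ i, |v i - (p' i - p i)| ≤ t' := by
    intro i
    by_cases hi : i = i0
    · rw [hi, hv0]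
      exact hw'
    · rw [hv1 i hi, abs_le]
      have h := abs_le.1 (hd i)
      constructor
      · have h1 : p' i - p i - t' ≤ min t (p' i - p i + t') := le_min (by linarith) (by linarith)
        linarith
      · have h1 := min_le_right t (p' i - p i + t')
        linarith
  refine ⟨WithLp.toLp 2 (fun i => p i + v i), ⟨fun i => ?_, ?_⟩, fun i => ?_, ?_⟩
  · rw [e1]
    exact b1 i
  · rcases ha with h | ⟨j, hj, h⟩
    · refine ⟨i0, ?_⟩
      rw [e1, hv0]
      exact h
    · refine ⟨j, ?_⟩
      rw [e1, hv1 j hj]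
      exact h
  · rw [e2]
    exact b2 i
  · rcases hb with h | ⟨j, hj, h⟩
    · refine ⟨i0, ?_⟩
      rw [e2, hv0]
      exact h
    · refine ⟨j, ?_⟩
      rw [e2, hv1 j hj]
      exact h

/-- Row INT. -/
theorem int : INTStmt := by
  intro n p p' t t' δ hn ht ht' hδ hd hd0 h1 h2 h3
  obtain ⟨i0, hi0⟩ := hd0
  have hnt : Nontrivial (Fin n) := Fin.nontrivial_iff_two_le.2 hn
  obtain ⟨j, hj⟩ := exists_ne i0
  rcases le_total t (p' j - p j + t') with hc | hc
  · -- the upper end is `t`
    have ea : |min t (p' j - p j + t')| = t := by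
      rw [min_eq_left hc, abs_of_pos ht]
    rcases abs_eq hδ.le |>.1 hi0 with hs | hs
    · refine core p p' t t' δ ht ht' hd h3 i0 (δ - t') ?_ ?_ (Or.inr ⟨j, hj, ea⟩) (Or.inl ?_)
      · rw [abs_le]
        constructor <;> linarith
      · rw [hs, abs_le]
        constructor <;> linarith
      · rw [hs]
        have e : δ - t' - δ = -t' := by ring
        rw [e, abs_neg, abs_of_pos ht']
    · refine core p p' t t' δ ht ht' hd h3 i0 (t' - δ) ?_ ?_ (Or.inr ⟨j, hj, ea⟩) (Or.inl ?_)
      · rw [abs_le]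
        constructor <;> linarith
      · rw [hs, abs_le]
        constructor <;> linarith
      · rw [hs]
        have e : t' - δ - -δ = t' := by ring
        rw [e, abs_of_pos ht']
  · have eb : |min t (p' j - p j + t') - (p' j - p j)| = t' := by
      rw [min_eq_right hc]
      have e : p' j - p j + t' - (p' j - p j) = t' := by ring
      rw [e, abs_of_pos ht']
    rcases abs_eq hδ.le |>.1 hi0 with hs | hs
    · refine core p p' t t' δ ht ht' hd h3 i0 t ?_ ?_ (Or.inl ?_) (Or.inr ⟨j, hj, eb⟩)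
      · rw [abs_of_pos ht]
      · rw [hs, abs_le]
        constructor <;> linarith
      · exact abs_of_pos ht
    · refine core p p' t t' δ ht ht' hd h3 i0 (-t) ?_ ?_ (Or.inl ?_) (Or.inr ⟨j, hj, eb⟩)
      · rw [abs_neg, abs_of_pos ht]
      · rw [hs, abs_le]
        constructor <;> linarith
      · rw [abs_neg, abs_of_pos ht]

end Pool.Agent.SKQ.H65
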